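import Mathlib

open Polynomial

namespace Pool.Agent.Results.MP_9c9d6b_nt.Counter

/-- remainders of the greedy expansion of `1` -/
noncomputable def r (b : ℝ) : ℕ → ℝ
  | 0 => 1
  | n + 1 => b * r b n - ⌊b * r b n⌋

/-- digits of the greedy expansion of `1`, for `n ≥ 1` -/
noncomputable def c (b : ℝ) (n : ℕ) : ℤ := ⌊b * r b (n - 1)⌋

/-- Salem numbers -/
def IsSalem (b : ℝ) : Prop :=
  IsIntegral ℤ b ∧ 1 < b ∧ (∀ z ∈ (minpoly ℤ b).aroots ℂ, z ≠ b → ‖z‖ ≤ 1) ∧
    ∃ z ∈ (minpoly ℤ b).aroots ℂ, ‖z‖ = 1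

/-- the digits repeat with period `p` after `m` places -/
def Per (b : ℝ) (m p : ℕ) : Prop := 1 ≤ p ∧ ∀ n, 1 ≤ n → c b (n + m) = c b (n + m + p)

/-- the polynomial `x^k - c_1 x^(k-1) - ... - c_k` -/
noncomputable def Pk (b : ℝ) (k : ℕ) : ℤ[X] :=
  X ^ k - ∑ i ∈ Finset.Icc 1 k, C (c b i) * X ^ (k - i)

noncomputable def P : ℤ[X] := X ^ 6 - 5 * X ^ 5 - 3 * X ^ 4 + 2 * X ^ 3 - 3 * X ^ 2 - 5 * X + 1

noncomputable def Q : ℤ[X] :=
  X ^ 27 + X ^ 25 - X ^ 24 + 2 * X ^ 20 - X ^ 19 + X ^ 18 - 2 * X ^ 17 + X ^ 16 + X ^ 14 + X ^ 13 - X ^ 12 + X ^ 11 - 2 * X ^ 10 + 2 * X ^ 9 - X ^ 8 + 2 * X ^ 7 - X ^ 3 + X ^ 2 + 1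

lemma P_monic : P.Monic := by unfold P; monicity!
lemma P_deg : P.natDegree = 6 := by unfold P; compute_degree!

lemma fin5 : ∀ a0 a1 a2 : ZMod 5, ∀ b0 b1 b2 b3 b4 : ZMod 5,
    ¬ (a0 * b0 = 1 ∧ a0 * b1 + b0 = 0 ∧ a0 * b2 + b1 = 2 ∧ a0 * b3 + b2 = 2 ∧
      a0 * b4 + b3 = 2 ∧ a0 + b4 = 0) ∧
    ¬ (a0 * b0 = 1 ∧ a0 * b1 + a1 * b0 = 0 ∧ a0 * b2 + a1 * b1 + b0 = 2 ∧
      a0 * b3 + a1 * b2 + b1 = 2 ∧ a0 + a1 * b3 + b2 = 2 ∧ a1 + b3 = 0) ∧
    ¬ (a0 * b0 = 1 ∧ a0 * b1 + a1 * b0 = 0 ∧ a0 * b2 + a1 * b1 + a2 * b0 = 2 ∧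
      a0 + a1 * b2 + a2 * b1 + b0 = 2 ∧ a1 + a2 * b2 + b1 = 2 ∧ a2 + b2 = 0) := by
  intro a0 a1 a2 b0 b1 b2 b3 b4
  refine ⟨?_, ?_, ?_⟩
  · rintro ⟨h0, h1, h2, h3, h4, h5⟩
    have e4 : b4 = -a0 := by linear_combination h5
    have e3 : b3 = 2 - a0 * b4 := by linear_combination h4
    have e2 : b2 = 2 - a0 * b3 := by linear_combination h3
    have e1 : b1 = 2 - a0 * b2 := by linear_combination h2
    have e0 : b0 = -a0 * b1 := by linear_combination h1
    subst e0 e1 e2 e3 e4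
    revert h0
    generalize a0 = x
    revert x
    decide
  · rintro ⟨h0, h1, h2, h3, h4, h5⟩
    have e3 : b3 = -a1 := by linear_combination h5
    have e2 : b2 = 2 - a0 - a1 * b3 := by linear_combination h4
    have e1 : b1 = 2 - a0 * b3 - a1 * b2 := by linear_combination h3
    have e0 : b0 = 2 - a0 * b2 - a1 * b1 := by linear_combination h2
    subst e0 e1 e2 e3
    revert h0 h1
    generalize a0 = x
    generalize a1 = y
    revert x y
    decide
  · rintro ⟨h0, h1, h2, h3, h4, h5⟩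
    have e2 : b2 = -a2 := by linear_combination h5
    have e1 : b1 = 2 - a1 - a2 * b2 := by linear_combination h4
    have e0 : b0 = 2 - a0 - a1 * b2 - a2 * b1 := by linear_combination h3
    subst e0 e1 e2
    revert h0 h1 h2
    generalize a0 = x
    generalize a1 = y
    generalize a2 = z
    revert x y z
    decide +kernel

lemma P_irr : Irreducible P := by
  have : Fact (Nat.Prime 5) := ⟨by norm_num⟩
  apply P_monic.irreducible_of_irreducible_map (Int.castRingHom (ZMod 5))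
  have hm := P_monic.map (Int.castRingHom (ZMod 5))
  have hd : (P.map (Int.castRingHom (ZMod 5))).natDegree = 6 := by
    rw [P_monic.natDegree_map, P_deg]
  rw [hm.irreducible_iff_natDegree']
  refine ⟨fun h => by rw [h] at hd; simp at hd, ?_⟩
  intro f g hf hg hfg hmem
  have hsum : f.natDegree + g.natDegree = 6 := by rw [← hf.natDegree_mul hg, hfg, hd]
  rw [hd, Finset.mem_Ioc] at hmem
  have co : ∀ n : ℕ, ∑ x ∈ Finset.HasAntidiagonal.antidiagonal n, g.coeff x.1 * f.coeff x.2 =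
      ((P.coeff n : ℤ) : ZMod 5) := by
    intro n
    rw [← coeff_mul, mul_comm, hfg, coeff_map]
    rfl
  have c0 := co 0
  have c1 := co 1
  have c2 := co 2
  have c3 := co 3
  have c4 := co 4
  have c5 := co 5
  simp [Finset.Nat.antidiagonal_succ, P, coeff_X, coeff_one] at c0 c1 c2 c3 c4 c5
  have five : (5 : ZMod 5) = 0 := rfl
  have g1 := hg.coeff_natDegree
  have f1 := hf.coeff_natDegree
  have gz : ∀ n, g.natDegree < n → g.coeff n = 0 := fun n hn => coeff_eq_zero_of_natDegree_lt hn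
  have fz : ∀ n, f.natDegree < n → f.coeff n = 0 := fun n hn => coeff_eq_zero_of_natDegree_lt hn
  have F := fin5 (g.coeff 0) (g.coeff 1) (g.coeff 2) (f.coeff 0) (f.coeff 1) (f.coeff 2)
    (f.coeff 3) (f.coeff 4)
  rcases (show g.natDegree = 1 ∨ g.natDegree = 2 ∨ g.natDegree = 3 by omega) with h | h | h
  · rw [h] at g1 gz
    rw [show f.natDegree = 5 by omega] at f1
    rw [g1] at c1 c2 c3 c4 c5
    rw [gz 2 (by norm_num)] at c2 c3 c4 c5
    rw [gz 3 (by norm_num)] at c3 c4 c5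
    rw [gz 4 (by norm_num)] at c4 c5
    rw [gz 5 (by norm_num), f1] at c5
    exact F.1 ⟨c0, by linear_combination c1 - five, by linear_combination c2 - five,
      by linear_combination c3, by linear_combination c4 - five, by linear_combination c5 - five⟩
  · rw [h] at g1 gz
    rw [show f.natDegree = 4 by omega] at f1 fz
    rw [g1] at c2 c3 c4 c5
    rw [gz 3 (by norm_num)] at c3 c4 c5
    rw [gz 4 (by norm_num), f1] at c4 c5
    rw [gz 5 (by norm_num), fz 5 (by norm_num)] at c5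
    exact F.2.1 ⟨c0, by linear_combination c1 - five, by linear_combination c2 - five,
      by linear_combination c3, by linear_combination c4 - five, by linear_combination c5 - five⟩
  · rw [h] at g1 gz
    rw [show f.natDegree = 3 by omega] at f1 fz
    rw [g1, f1] at c3 c4 c5
    rw [gz 4 (by norm_num), fz 4 (by norm_num)] at c4 c5
    rw [gz 5 (by norm_num), fz 5 (by norm_num)] at c5
    exact F.2.2 ⟨c0, by linear_combination c1 - five, by linear_combination c2 - five,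
      by linear_combination c3, by linear_combination c4 - five, by linear_combination c5 - five⟩

lemma exists_b : ∃ b : ℝ, 550242101 / 10 ^ 8 ≤ b ∧ b ≤ 550242102 / 10 ^ 8 ∧
    b ^ 6 - 5 * b ^ 5 - 3 * b ^ 4 + 2 * b ^ 3 - 3 * b ^ 2 - 5 * b + 1 = 0 := by
  have hc : ContinuousOn
      (fun b : ℝ => b ^ 6 - 5 * b ^ 5 - 3 * b ^ 4 + 2 * b ^ 3 - 3 * b ^ 2 - 5 * b + 1)
      (Set.Icc (550242101 / 10 ^ 8) (550242102 / 10 ^ 8)) := by fun_prop
  have := intermediate_value_Icc (by norm_num) hc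
  obtain ⟨t, ht, h⟩ := this (show (0 : ℝ) ∈ _ by constructor <;> norm_num)
  exact ⟨t, ht.1, ht.2, h⟩

lemma step (b : ℝ) (n : ℕ) (d : ℤ) (x y : ℝ) (hx : r b n = x) (hy : b * x = y + d)
    (h0 : 0 ≤ y) (h1 : y < 1) : c b (n + 1) = d ∧ r b (n + 1) = y := by
  have : ⌊b * r b n⌋ = d := by
    rw [hx, hy, Int.floor_eq_iff]
    constructor <;> linarith
  refine ⟨this, ?_⟩
  rw [r, this, hx, hy]
  ring

def dig (n : ℕ) : ℤ := if n = 1 then 5 else
  [2, 4, 1, 0, 4, 0, 5, 1, 0, 0, 4, 2, 2, 1, 2, 4, 1, 4, 0, 3, 3, 5, 0, 5, 0, 4, 0, 1, 4, 2, 4, 4].getD ((n - 2) % 32) 0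

lemma digits (b : ℝ) (l1 : 550242101 / 10 ^ 8 ≤ b) (u1 : b ≤ 550242102 / 10 ^ 8)
    (h : b ^ 6 - 5 * b ^ 5 - 3 * b ^ 4 + 2 * b ^ 3 - 3 * b ^ 2 - 5 * b + 1 = 0) :
    ∀ n, 1 ≤ n → c b n = dig n := by
  have b0 : 0 ≤ b := by linarith
  have l2 : (550242101 / 10 ^ 8 : ℝ) ^ 2 ≤ b ^ 2 := by gcongr
  have u2 : b ^ 2 ≤ (550242102 / 10 ^ 8 : ℝ) ^ 2 := by gcongr
  norm_num at l2 u2
  have l3 : (550242101 / 10 ^ 8 : ℝ) ^ 3 ≤ b ^ 3 := by gcongr
  have u3 : b ^ 3 ≤ (550242102 / 10 ^ 8 : ℝ) ^ 3 := by gcongr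
  norm_num at l3 u3
  have l4 : (550242101 / 10 ^ 8 : ℝ) ^ 4 ≤ b ^ 4 := by gcongr
  have u4 : b ^ 4 ≤ (550242102 / 10 ^ 8 : ℝ) ^ 4 := by gcongr
  norm_num at l4 u4
  have l5 : (550242101 / 10 ^ 8 : ℝ) ^ 5 ≤ b ^ 5 := by gcongr
  have u5 : b ^ 5 ≤ (550242102 / 10 ^ 8 : ℝ) ^ 5 := by gcongr
  norm_num at l5 u5
  have s1 : c b 1 = 5 ∧ r b 1 = (-5) + (1) * b + (0) * b ^ 2 + (0) * b ^ 3 + (0) * b ^ 4 + (0) * b ^ 5 :=
    step b 0 5 1 _ rfl (by linear_combination (0) * h) (by linarith) (by linarith)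
  have s2 : c b 2 = 2 ∧ r b 2 = (-2) + (-5) * b + (1) * b ^ 2 + (0) * b ^ 3 + (0) * b ^ 4 + (0) * b ^ 5 :=
    step b 1 2 _ _ s1.2 (by linear_combination (0) * h) (by linarith) (by linarith)
  have s3 : c b 3 = 4 ∧ r b 3 = (-4) + (-2) * b + (-5) * b ^ 2 + (1) * b ^ 3 + (0) * b ^ 4 + (0) * b ^ 5 :=
    step b 2 4 _ _ s2.2 (by linear_combination (0) * h) (by linarith) (by linarith)
  have s4 : c b 4 = 1 ∧ r b 4 = (-1) + (-4) * b + (-2) * b ^ 2 + (-5) * b ^ 3 + (1) * b ^ 4 + (0) * b ^ 5 :=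
    step b 3 1 _ _ s3.2 (by linear_combination (0) * h) (by linarith) (by linarith)
  have s5 : c b 5 = 0 ∧ r b 5 = (0) + (-1) * b + (-4) * b ^ 2 + (-2) * b ^ 3 + (-5) * b ^ 4 + (1) * b ^ 5 :=
    step b 4 0 _ _ s4.2 (by linear_combination (0) * h) (by linarith) (by linarith)
  have s6 : c b 6 = 4 ∧ r b 6 = (-5) + (5) * b + (2) * b ^ 2 + (-6) * b ^ 3 + (1) * b ^ 4 + (0) * b ^ 5 :=
    step b 5 4 _ _ s5.2 (by linear_combination (1) * h) (by linarith) (by linarith)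
  have s7 : c b 7 = 0 ∧ r b 7 = (0) + (-5) * b + (5) * b ^ 2 + (2) * b ^ 3 + (-6) * b ^ 4 + (1) * b ^ 5 :=
    step b 6 0 _ _ s6.2 (by linear_combination (0) * h) (by linarith) (by linarith)
  have s8 : c b 8 = 5 ∧ r b 8 = (-6) + (5) * b + (-2) * b ^ 2 + (3) * b ^ 3 + (5) * b ^ 4 + (-1) * b ^ 5 :=
    step b 7 5 _ _ s7.2 (by linear_combination (1) * h) (by linarith) (by linarith)
  have s9 : c b 9 = 1 ∧ r b 9 = (0) + (-11) * b + (2) * b ^ 2 + (0) * b ^ 3 + (0) * b ^ 4 + (0) * b ^ 5 :=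
    step b 8 1 _ _ s8.2 (by linear_combination (-1) * h) (by linarith) (by linarith)
  have s10 : c b 10 = 0 ∧ r b 10 = (0) + (0) * b + (-11) * b ^ 2 + (2) * b ^ 3 + (0) * b ^ 4 + (0) * b ^ 5 :=
    step b 9 0 _ _ s9.2 (by linear_combination (0) * h) (by linarith) (by linarith)
  have s11 : c b 11 = 0 ∧ r b 11 = (0) + (0) * b + (0) * b ^ 2 + (-11) * b ^ 3 + (2) * b ^ 4 + (0) * b ^ 5 :=
    step b 10 0 _ _ s10.2 (by linear_combination (0) * h) (by linarith) (by linarith)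
  have s12 : c b 12 = 4 ∧ r b 12 = (-4) + (0) * b + (0) * b ^ 2 + (0) * b ^ 3 + (-11) * b ^ 4 + (2) * b ^ 5 :=
    step b 11 4 _ _ s11.2 (by linear_combination (0) * h) (by linarith) (by linarith)
  have s13 : c b 13 = 2 ∧ r b 13 = (-4) + (6) * b + (6) * b ^ 2 + (-4) * b ^ 3 + (6) * b ^ 4 + (-1) * b ^ 5 :=
    step b 12 2 _ _ s12.2 (by linear_combination (2) * h) (by linarith) (by linarith)
  have s14 : c b 14 = 2 ∧ r b 14 = (-1) + (-9) * b + (3) * b ^ 2 + (8) * b ^ 3 + (-7) * b ^ 4 + (1) * b ^ 5 :=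
    step b 13 2 _ _ s13.2 (by linear_combination (-1) * h) (by linarith) (by linarith)
  have s15 : c b 15 = 1 ∧ r b 15 = (-2) + (4) * b + (-6) * b ^ 2 + (1) * b ^ 3 + (11) * b ^ 4 + (-2) * b ^ 5 :=
    step b 14 1 _ _ s14.2 (by linear_combination (1) * h) (by linarith) (by linarith)
  have s16 : c b 16 = 2 ∧ r b 16 = (0) + (-12) * b + (-2) * b ^ 2 + (-2) * b ^ 3 + (-5) * b ^ 4 + (1) * b ^ 5 :=
    step b 15 2 _ _ s15.2 (by linear_combination (-2) * h) (by linarith) (by linarith)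
  have s17 : c b 17 = 4 ∧ r b 17 = (-5) + (5) * b + (-9) * b ^ 2 + (-4) * b ^ 3 + (1) * b ^ 4 + (0) * b ^ 5 :=
    step b 16 4 _ _ s16.2 (by linear_combination (1) * h) (by linarith) (by linarith)
  have s18 : c b 18 = 1 ∧ r b 18 = (-1) + (-5) * b + (5) * b ^ 2 + (-9) * b ^ 3 + (-4) * b ^ 4 + (1) * b ^ 5 :=
    step b 17 1 _ _ s17.2 (by linear_combination (0) * h) (by linarith) (by linarith)
  have s19 : c b 19 = 4 ∧ r b 19 = (-5) + (4) * b + (-2) * b ^ 2 + (3) * b ^ 3 + (-6) * b ^ 4 + (1) * b ^ 5 :=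
    step b 18 4 _ _ s18.2 (by linear_combination (1) * h) (by linarith) (by linarith)
  have s20 : c b 20 = 0 ∧ r b 20 = (-1) + (0) * b + (7) * b ^ 2 + (-4) * b ^ 3 + (6) * b ^ 4 + (-1) * b ^ 5 :=
    step b 19 0 _ _ s19.2 (by linear_combination (1) * h) (by linarith) (by linarith)
  have s21 : c b 21 = 3 ∧ r b 21 = (-2) + (-6) * b + (-3) * b ^ 2 + (9) * b ^ 3 + (-7) * b ^ 4 + (1) * b ^ 5 :=
    step b 20 3 _ _ s20.2 (by linear_combination (-1) * h) (by linarith) (by linarith)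
  have s22 : c b 22 = 3 ∧ r b 22 = (-4) + (3) * b + (-3) * b ^ 2 + (-5) * b ^ 3 + (12) * b ^ 4 + (-2) * b ^ 5 :=
    step b 21 3 _ _ s21.2 (by linear_combination (1) * h) (by linarith) (by linarith)
  have s23 : c b 23 = 5 ∧ r b 23 = (-3) + (-14) * b + (-3) * b ^ 2 + (1) * b ^ 3 + (-11) * b ^ 4 + (2) * b ^ 5 :=
    step b 22 5 _ _ s22.2 (by linear_combination (-2) * h) (by linarith) (by linarith)
  have s24 : c b 24 = 0 ∧ r b 24 = (-2) + (7) * b + (-8) * b ^ 2 + (-7) * b ^ 3 + (7) * b ^ 4 + (-1) * b ^ 5 :=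
    step b 23 0 _ _ s23.2 (by linear_combination (2) * h) (by linarith) (by linarith)
  have s25 : c b 25 = 5 ∧ r b 25 = (-4) + (-7) * b + (4) * b ^ 2 + (-6) * b ^ 3 + (-10) * b ^ 4 + (2) * b ^ 5 :=
    step b 24 5 _ _ s24.2 (by linear_combination (-1) * h) (by linarith) (by linarith)
  have s26 : c b 26 = 0 ∧ r b 26 = (-2) + (6) * b + (-1) * b ^ 2 + (0) * b ^ 3 + (0) * b ^ 4 + (0) * b ^ 5 :=
    step b 25 0 _ _ s25.2 (by linear_combination (2) * h) (by linarith) (by linarith)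
  have s27 : c b 27 = 4 ∧ r b 27 = (-4) + (-2) * b + (6) * b ^ 2 + (-1) * b ^ 3 + (0) * b ^ 4 + (0) * b ^ 5 :=
    step b 26 4 _ _ s26.2 (by linear_combination (0) * h) (by linarith) (by linarith)
  have s28 : c b 28 = 0 ∧ r b 28 = (0) + (-4) * b + (-2) * b ^ 2 + (6) * b ^ 3 + (-1) * b ^ 4 + (0) * b ^ 5 :=
    step b 27 0 _ _ s27.2 (by linear_combination (0) * h) (by linarith) (by linarith)
  have s29 : c b 29 = 1 ∧ r b 29 = (-1) + (0) * b + (-4) * b ^ 2 + (-2) * b ^ 3 + (6) * b ^ 4 + (-1) * b ^ 5 :=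
    step b 28 1 _ _ s28.2 (by linear_combination (0) * h) (by linarith) (by linarith)
  have s30 : c b 30 = 4 ∧ r b 30 = (-3) + (-6) * b + (-3) * b ^ 2 + (-2) * b ^ 3 + (-5) * b ^ 4 + (1) * b ^ 5 :=
    step b 29 4 _ _ s29.2 (by linear_combination (-1) * h) (by linarith) (by linarith)
  have s31 : c b 31 = 2 ∧ r b 31 = (-3) + (2) * b + (-3) * b ^ 2 + (-5) * b ^ 3 + (1) * b ^ 4 + (0) * b ^ 5 :=
    step b 30 2 _ _ s30.2 (by linear_combination (1) * h) (by linarith) (by linarith)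
  have s32 : c b 32 = 4 ∧ r b 32 = (-4) + (-3) * b + (2) * b ^ 2 + (-3) * b ^ 3 + (-5) * b ^ 4 + (1) * b ^ 5 :=
    step b 31 4 _ _ s31.2 (by linear_combination (0) * h) (by linarith) (by linarith)
  have s33 : c b 33 = 4 ∧ r b 33 = (-5) + (1) * b + (0) * b ^ 2 + (0) * b ^ 3 + (0) * b ^ 4 + (0) * b ^ 5 :=
    step b 32 4 _ _ s32.2 (by linear_combination (1) * h) (by linarith) (by linarith)
  have per : ∀ n, r b (n + 1 + 32) = r b (n + 1) := by
    intro n
    induction n with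
    | zero => rw [s33.2, s1.2]
    | succ n ih =>
      rw [show n + 1 + 1 + 32 = n + 1 + 32 + 1 by ring, r, ih]
      rfl
  intro n
  induction n using Nat.strong_induction_on with
  | _ n ih =>
    intro hn
    by_cases hc : n ≤ 33
    · interval_cases n
      · exact s1.1
      · exact s2.1
      · exact s3.1
      · exact s4.1
      · exact s5.1
      · exact s6.1
      · exact s7.1
      · exact s8.1
      · exact s9.1
      · exact s10.1
      · exact s11.1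
      · exact s12.1
      · exact s13.1
      · exact s14.1
      · exact s15.1
      · exact s16.1
      · exact s17.1
      · exact s18.1
      · exact s19.1
      · exact s20.1
      · exact s21.1
      · exact s22.1
      · exact s23.1
      · exact s24.1
      · exact s25.1
      · exact s26.1
      · exact s27.1
      · exact s28.1
      · exact s29.1
      · exact s30.1
      · exact s31.1
      · exact s32.1
      · exact s33.1
    · obtain ⟨k, rfl⟩ : ∃ k, n = k + 2 + 32 := ⟨n - 34, by omega⟩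
      have e1 : c b (k + 2 + 32) = c b (k + 2) := by
        unfold c
        rw [show k + 2 + 32 - 1 = k + 1 + 32 by omega, per]
        rfl
      rw [e1, ih (k + 2) (by omega) (by omega)]
      unfold dig
      rw [if_neg (by omega), if_neg (by omega)]
      congr 1
      omega

lemma dig_per (n : ℕ) (hn : 1 ≤ n) : dig (n + 1) = dig (n + 1 + 32) := by
  unfold dig
  rw [if_neg (by omega), if_neg (by omega)]
  congr 1
  omega

lemma dig_min : ∀ p < 32, 1 ≤ p → ∃ n < 33, 1 ≤ n ∧ dig (n + 1) ≠ dig (n + 1 + p) := by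
  decide +kernel

lemma unit (z : ℂ) (s t : ℝ) (hs0 : 0 ≤ s) (hs : s ≤ 0.7) (ht0 : -2.2 ≤ t) (ht : t < 0)
    (hz : z ≠ 0) (h : (z + z⁻¹) ^ 2 + s * (z + z⁻¹) + t = 0) : ‖z‖ = 1 := by
  set y := z + z⁻¹ with hy
  have r1 := congrArg Complex.re h
  have i1 := congrArg Complex.im h
  simp [sq] at r1 i1
  have yi : y.im = 0 := by
    by_contra hc
    have : 2 * y.re + s = 0 := by
      apply mul_left_cancel₀ hc
      linarith
    nlinarith [sq_nonneg y.im, sq_nonneg y.re]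
  rw [yi] at r1
  have y1 : y.re < 2 := by nlinarith
  have y2 : -2 < y.re := by nlinarith
  have hq : z * z - y * z + 1 = 0 := by
    rw [hy]
    field_simp
    ring
  have r2 := congrArg Complex.re hq
  have i2 := congrArg Complex.im hq
  simp [yi] at r2 i2
  have zi : z.im ≠ 0 := by
    intro h0
    rw [h0] at r2
    nlinarith [sq_nonneg (2 * z.re - y.re)]
  have : 2 * z.re - y.re = 0 := by
    apply mul_left_cancel₀ zi
    linarith
  have hn : ‖z‖ ^ 2 = 1 := by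
    rw [Complex.sq_norm, Complex.normSq_apply]
    have : y.re = 2 * z.re := by linarith
    rw [this] at r2
    linarith
  nlinarith [norm_nonneg z]

theorem result : ∃ (b : ℝ) (p : ℕ) (Q : ℤ[X]), IsSalem b ∧ (minpoly ℤ b).natDegree = 6 ∧
    IsLeast {m | ∃ p', Per b m p'} 1 ∧ IsLeast {p' | Per b 1 p'} p ∧
    Pk b (1 + p) - Pk b 1 = minpoly ℤ b * Q ∧ Q.reverse ≠ Q := by
  obtain ⟨b, l1, u1, h⟩ := exists_b
  have hd := digits b l1 u1 h
  have hP : aeval b P = 0 := by simpa [P, map_ofNat] using h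
  have hint : IsIntegral ℤ b := ⟨P, P_monic, hP⟩
  have hmin : minpoly ℤ b = P := by
    have h1 := minpoly.isIntegrallyClosed_dvd hint hP
    exact eq_of_monic_of_associated (minpoly.monic hint) P_monic
      ((minpoly.irreducible hint).associated_of_dvd P_irr h1)
  have hper : Per b 1 32 := by
    refine ⟨by norm_num, fun n hn => ?_⟩
    rw [hd _ (by omega), hd _ (by omega), dig_per n hn]
  have b0 : (0 : ℝ) < b := by linarith
  have i1 : b⁻¹ ≤ 0.182 := by
    rw [inv_le_comm₀ b0 (by norm_num)]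
    norm_num
    linarith
  have i2 : 0.181 ≤ b⁻¹ := by
    rw [le_inv_comm₀ (by norm_num) b0]
    norm_num
    linarith
  have hbc : (b : ℂ) ≠ 0 := by exact_mod_cast b0.ne'
  have hc : (b : ℂ) ^ 6 - 5 * b ^ 5 - 3 * b ^ 4 + 2 * b ^ 3 - 3 * b ^ 2 - 5 * b + 1 = 0 := by
    exact_mod_cast h
  set s : ℝ := b + b⁻¹ - 5 with hs
  set t : ℝ := (b + b⁻¹) ^ 2 - 5 * (b + b⁻¹) - 6 with ht
  have fac : ∀ z : ℂ, z ≠ 0 → aeval z P =
      (z - b) * (z - (b : ℂ)⁻¹) * (z ^ 2 * ((z + z⁻¹) ^ 2 + s * (z + z⁻¹) + t)) := by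
    intro z hz
    simp only [P, map_sub, map_add, map_mul, map_pow, aeval_X, map_ofNat, map_one, hs, ht]
    push_cast
    field_simp
    linear_combination z ^ 3 * hc
  have hu := fun z => unit z s t (by linarith) (by linarith) (by nlinarith) (by nlinarith)
  refine ⟨b, 32, Q, ⟨hint, by linarith, ?_, ?_⟩, by rw [hmin, P_deg], ⟨⟨32, hper⟩, ?_⟩,
    ⟨hper, ?_⟩, ?_, ?_⟩
  · intro z hz hne
    rw [hmin] at hz
    have h0 := (mem_aroots.1 hz).2
    have hz0 : z ≠ 0 := by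
      rintro rfl
      simp [P] at h0
    rw [fac z hz0] at h0
    rcases mul_eq_zero.1 h0 with h1 | h1
    · rcases mul_eq_zero.1 h1 with h2 | h2
      · exact absurd (sub_eq_zero.1 h2) hne
      · rw [sub_eq_zero.1 h2, norm_inv, Complex.norm_real, Real.norm_eq_abs, abs_of_pos b0]
        linarith
    · exact (hu z hz0 ((mul_eq_zero.1 h1).resolve_left (pow_ne_zero 2 hz0))).le
  · obtain ⟨y, hy⟩ := exists_quadratic_eq_zero (a := (1 : ℂ)) (b := s) (c := t) one_ne_zero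
      (IsAlgClosed.exists_eq_mul_self _)
    obtain ⟨z, hz⟩ := exists_quadratic_eq_zero (a := (1 : ℂ)) (b := -y) (c := 1) one_ne_zero
      (IsAlgClosed.exists_eq_mul_self _)
    have hz0 : z ≠ 0 := by
      rintro rfl
      simp at hz
    have e : z + z⁻¹ = y := by
      field_simp
      linear_combination hz
    have hq : (z + z⁻¹) ^ 2 + s * (z + z⁻¹) + t = 0 := by
      rw [e]
      linear_combination hy
    refine ⟨z, ?_, hu z hz0 hq⟩
    rw [hmin, mem_aroots]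
    exact ⟨P_monic.ne_zero, by rw [fac z hz0, hq]; ring⟩
  · rintro m ⟨p, hp1, hp⟩
    by_contra hm
    obtain rfl : m = 0 := by omega
    have it : ∀ k, c b (1 + k * p) = c b 1 := by
      intro k
      induction k with
      | zero => simp
      | succ k ih =>
        rw [← ih, show 1 + (k + 1) * p = 1 + k * p + 0 + p by ring, ← hp _ (by omega)]
        rfl
    have := it 32
    rw [hd _ (by omega), hd 1 le_rfl] at this
    unfold dig at this
    rw [if_neg (by omega), show (1 + 32 * p - 2) % 32 = 31 by omega] at this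
    revert this
    decide
  · intro p hp
    by_contra hc
    obtain ⟨n, _, hn1, hn⟩ := dig_min p (by omega) hp.1
    apply hn
    rw [← hd _ (by omega), ← hd _ (by omega)]
    exact hp.2 n hn1
  · rw [hmin]
    unfold Pk
    rw [Finset.sum_congr rfl (fun i hi => by rw [hd i (Finset.mem_Icc.1 hi).1]),
      Finset.sum_congr (s₁ := Finset.Icc 1 1) rfl
        (fun i hi => by rw [hd i (Finset.mem_Icc.1 hi).1])]
    simp [Finset.sum_Icc_succ_top, dig, P, Q]
    ring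
  · intro hq
    have hdeg : Q.natDegree = 27 := by unfold Q; compute_degree!
    have := congrArg (fun f => coeff f 9) hq
    simp only [coeff_reverse, hdeg] at this
    rw [revAt_le (by norm_num)] at this
    simp [Q, coeff_X_pow, coeff_one] at this

end Pool.Agent.Results.MP_9c9d6b_nt.Counter
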